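import Mathlib

/-!
# MP_c5ead3_nt: deficient multipliers making an integer non-deficient
-/

namespace Pool.Agent.Results.MP_c5ead3_nt.ValuesAlmostPerfect

/-- the sum of the divisors of `k`. -/
def s (k : ℕ) : ℕ := ∑ d ∈ k.divisors, d

/-- `a n` is the least `k ≥ 1` such that `k` is deficient and `k n` is non-deficient
(`0` if there is no such `k`). -/
noncomputable def a (n : ℕ) : ℕ := sInf {k | 1 ≤ k ∧ s k < 2 * k ∧ 2 * (k * n) ≤ s (k * n)}

lemma s_mul {m n : ℕ} (h : m.Coprime n) : s (m * n) = s m * s n := by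
  unfold s
  exact h.sum_divisors_mul

lemma s_two_pow (j : ℕ) : s (2 ^ j) + 1 = 2 ^ (j + 1) := by
  unfold s
  rw [Nat.sum_divisors_prime_pow Nat.prime_two]
  induction j with
  | zero => simp
  | succ j ih =>
    rw [Finset.sum_range_succ]
    have : 2 ^ (j + 1 + 1) = 2 ^ (j + 1) + 2 ^ (j + 1) := by ring
    omega

lemma s_prime {q : ℕ} (hq : q.Prime) : s q = q + 1 := by
  unfold s
  rw [hq.sum_divisors]

lemma s_ge (t : ℕ) (ht : 0 < t) : t ≤ s t := by
  unfold s
  exact Finset.single_le_sum (f := fun d => d) (fun _ _ => Nat.zero_le _)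
    (Nat.mem_divisors_self t ht.ne')


lemma s_submul (m n : ℕ) : s (m * n) ≤ s m * s n := by
  unfold s
  rw [Nat.divisors_mul, Finset.sum_mul_sum, ← Finset.sum_product', Finset.mul_def]
  classical
  generalize m.divisors ×ˢ n.divisors = S
  induction S using Finset.induction_on with
  | empty => simp
  | insert x S hx ih =>
    rw [Finset.image_insert, Finset.sum_insert hx]
    by_cases h : x.1 * x.2 ∈ Finset.image (fun p : ℕ × ℕ => p.1 * p.2) S
    · rw [Finset.insert_eq_of_mem h]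
      exact ih.trans (Nat.le_add_left _ _)
    · rw [Finset.sum_insert h]
      exact Nat.add_le_add_left ih _

/-- the set of admissible multipliers. -/
def M (n : ℕ) : Set ℕ := {k | 1 ≤ k ∧ s k < 2 * k ∧ 2 * (k * n) ≤ s (k * n)}

lemma a_def (n : ℕ) : a n = sInf (M n) := rfl

lemma s_half (n : ℕ) (hn : 2 ≤ n) (h2 : 2 ∣ n) : 3 * n ≤ 2 * s n := by
  obtain ⟨t, rfl⟩ := h2
  have hsub : ({t, 2 * t} : Finset ℕ) ⊆ (2 * t).divisors := by
    intro x hx
    simp only [Finset.mem_insert, Finset.mem_singleton] at hx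
    rw [Nat.mem_divisors]
    rcases hx with rfl | rfl
    · exact ⟨Dvd.intro_left 2 rfl, by omega⟩
    · exact ⟨dvd_rfl, by omega⟩
  have h4 : ∑ d ∈ ({t, 2 * t} : Finset ℕ), d ≤ s (2 * t) := Finset.sum_le_sum_of_subset hsub
  rw [Finset.sum_insert (by simp; omega), Finset.sum_singleton] at h4
  omega

lemma s_six (n : ℕ) (hn : 2 ≤ n) (h6 : 6 ∣ n) : 2 * n ≤ s n := by
  obtain ⟨t, rfl⟩ := h6
  have hsub : ({t, 2 * t, 3 * t, 6 * t} : Finset ℕ) ⊆ (6 * t).divisors := by
    intro x hx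
    simp only [Finset.mem_insert, Finset.mem_singleton] at hx
    rw [Nat.mem_divisors]
    rcases hx with rfl | rfl | rfl | rfl
    · exact ⟨⟨6, by ring⟩, by omega⟩
    · exact ⟨⟨3, by ring⟩, by omega⟩
    · exact ⟨⟨2, by ring⟩, by omega⟩
    · exact ⟨dvd_rfl, by omega⟩
  have h4 : ∑ d ∈ ({t, 2 * t, 3 * t, 6 * t} : Finset ℕ), d ≤ s (6 * t) :=
    Finset.sum_le_sum_of_subset hsub
  rw [Finset.sum_insert (by simp; omega), Finset.sum_insert (by simp; omega),
    Finset.sum_insert (by simp; omega), Finset.sum_singleton] at h4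
  omega

lemma s_one : s 1 = 1 := by simp [s]

lemma s_three : s 3 = 4 := s_prime Nat.prime_three

lemma even_le (n : ℕ) (hn : 2 ≤ n) (h2 : 2 ∣ n) : ∃ k ∈ M n, k ≤ 3 := by
  by_cases h3 : 3 ∣ n
  · refine ⟨1, ⟨le_rfl, by rw [s_one]; norm_num, ?_⟩, by norm_num⟩
    rw [one_mul]
    exact s_six n hn (Nat.Coprime.mul_dvd_of_dvd_of_dvd (by norm_num) h2 h3)
  · refine ⟨3, ⟨by norm_num, by rw [s_three]; norm_num, ?_⟩, le_rfl⟩
    rw [s_mul ((Nat.Prime.coprime_iff_not_dvd Nat.prime_three).2 h3), s_three]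
    have := s_half n hn h2
    omega

lemma s_gt (n : ℕ) (hn : 2 ≤ n) : n + 1 ≤ s n := by
  have hsub : ({1, n} : Finset ℕ) ⊆ n.divisors := by
    intro x hx
    simp only [Finset.mem_insert, Finset.mem_singleton] at hx
    rw [Nat.mem_divisors]
    rcases hx with rfl | rfl
    · exact ⟨one_dvd _, by omega⟩
    · exact ⟨dvd_rfl, by omega⟩
  have h4 : ∑ d ∈ ({1, n} : Finset ℕ), d ≤ s n := Finset.sum_le_sum_of_subset hsub
  rw [Finset.sum_insert (by simp; omega), Finset.sum_singleton] at h4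
  omega

lemma pow_cop (n j : ℕ) (h2 : ¬ 2 ∣ n) : (2 ^ j).Coprime n :=
  Nat.Coprime.pow_left _ ((Nat.Prime.coprime_iff_not_dvd Nat.prime_two).2 h2)

lemma odd_ne (n : ℕ) (hn : 2 ≤ n) (h2 : ¬ 2 ∣ n) : (M n).Nonempty := by
  refine ⟨2 ^ (s n), Nat.one_le_two_pow, ?_, ?_⟩
  · have := s_two_pow (s n)
    have e : 2 ^ (s n + 1) = 2 * 2 ^ (s n) := by ring
    omega
  · rw [s_mul (pow_cop n _ h2)]
    have g := s_two_pow (s n)
    have e : 2 ^ (s n + 1) = 2 * 2 ^ (s n) := by ring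
    have h1 := s_gt n hn
    have h3 : s n < 2 ^ s n := Nat.lt_two_pow_self
    obtain ⟨A, hA⟩ : ∃ A, s n = n + 1 + A := ⟨s n - n - 1, by omega⟩
    generalize hQ : 2 ^ s n = Q at g e h3 ⊢
    have hs : s Q = 2 * Q - 1 := by omega
    rw [hs]
    obtain ⟨K, hK⟩ : ∃ K, Q = K + 1 := ⟨Q - 1, by omega⟩
    have i1 : 2 * Q - 1 = 2 * K + 1 := by omega
    rw [i1, hK]
    rw [hA] at h3 ⊢
    nlinarith

lemma M_ne (n : ℕ) (hn : 2 ≤ n) : (M n).Nonempty := by
  by_cases h2 : 2 ∣ n
  · obtain ⟨k, hk, -⟩ := even_le n hn h2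
    exact ⟨k, hk⟩
  · exact odd_ne n hn h2

/-- every value of `a` is `3` or almost perfect. -/
theorem part1 (n : ℕ) (hn : 2 ≤ n) : a n = 3 ∨ s (a n) + 1 = 2 * a n := by
  have hmem : a n ∈ M n := Nat.sInf_mem (M_ne n hn)
  by_cases h2 : 2 ∣ n
  · obtain ⟨k, hk, hk3⟩ := even_le n hn h2
    have h1 : a n ≤ k := Nat.sInf_le hk
    have h3 := hmem.1
    have : a n = 1 ∨ a n = 2 ∨ a n = 3 := by omega
    rcases this with h | h | h
    · right; rw [h, s_one]
    · right; rw [h, s_prime Nat.prime_two]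
    · left; exact h
  · right
    obtain ⟨k, hk⟩ : ∃ k, a n = k := ⟨_, rfl⟩
    rw [hk] at hmem ⊢
    obtain ⟨k1, k2, k3⟩ := hmem
    set j := Nat.log 2 k with hj
    have hj1 : 2 ^ j ≤ k := Nat.pow_log_le_self 2 (by omega)
    have hj2 : k < 2 ^ (j + 1) := Nat.lt_pow_succ_log_self (by norm_num) k
    rcases hj1.eq_or_lt with h | h
    · rw [← h, s_two_pow]
      ring
    · have hnot : 2 ^ j ∉ M n := by
        intro hm
        have := Nat.sInf_le hm
        rw [← a_def, hk] at this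
        omega
      have g := s_two_pow j
      have e : 2 ^ (j + 1) = 2 * 2 ^ j := by ring
      have hlt : s (2 ^ j * n) < 2 * (2 ^ j * n) := by
        by_contra hcon
        push Not at hcon
        exact hnot ⟨Nat.one_le_two_pow, by omega, hcon⟩
      rw [s_mul (pow_cop n _ h2)] at hlt
      have hsub := s_submul k n
      have hQ : 0 < 2 ^ j := by positivity
      obtain ⟨Q, hQd⟩ : ∃ Q, 2 ^ j = Q + 1 := ⟨2 ^ j - 1, by omega⟩
      have hs : s (2 ^ j) = 2 * Q + 1 := by omega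
      rw [hs, hQd] at hlt
      obtain ⟨d, hd⟩ : ∃ d, 2 * k = s k + 1 + d := ⟨2 * k - s k - 1, by omega⟩
      by_contra hne
      have hd1 : 1 ≤ d := by omega
      have hk4 : k < 2 * Q + 2 := by omega
      -- contradiction
      have c1 : 2 * (k * n) ≤ s k * s n := k3.trans hsub
      have c2 : s k * ((2 * Q + 1) * s n) ≤ s k * (2 * ((Q + 1) * n)) :=
        Nat.mul_le_mul_left _ hlt.le
      have c3 : (2 * (k * n)) * (2 * Q + 1) ≤ (s k * s n) * (2 * Q + 1) :=
        Nat.mul_le_mul_right _ c1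
      have c4 : (2 * k) * (2 * Q + 1) * n ≤ (s k * (2 * Q + 2)) * n := by
        calc (2 * k) * (2 * Q + 1) * n = (2 * (k * n)) * (2 * Q + 1) := by ring
          _ ≤ (s k * s n) * (2 * Q + 1) := c3
          _ = s k * ((2 * Q + 1) * s n) := by ring
          _ ≤ s k * (2 * ((Q + 1) * n)) := c2
          _ = (s k * (2 * Q + 2)) * n := by ring
      have c5 : (2 * k) * (2 * Q + 1) ≤ s k * (2 * Q + 2) :=
        Nat.le_of_mul_le_mul_right c4 (by omega)
      nlinarith

/-! ## Every almost perfect number is a value -/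

/-- products of the primes in `(B, B + i]`. -/
def N (B : ℕ) : ℕ → ℕ
  | 0 => 1
  | i + 1 => if (B + i + 1).Prime then N B i * (B + i + 1) else N B i

lemma N_pos (B i : ℕ) : 0 < N B i := by
  induction i with
  | zero => simp [N]
  | succ i ih =>
    simp only [N]
    split_ifs
    · positivity
    · exact ih

lemma N_prime (B i q : ℕ) (hq : q.Prime) (h : q ∣ N B i) : B < q ∧ q ≤ B + i := by
  induction i with
  | zero =>
    simp only [N] at h
    exact absurd (Nat.dvd_one.1 h) hq.one_lt.ne'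
  | succ i ih =>
    simp only [N] at h
    split_ifs at h with hp
    · rcases (hq.dvd_mul).1 h with h1 | h1
      · have := ih h1
        omega
      · have := (Nat.prime_dvd_prime_iff_eq hq hp).1 h1
        omega
    · have := ih h
      omega

lemma N_cop (B i k : ℕ) (hk : 1 ≤ k) (hkB : k ≤ B) : k.Coprime (N B i) := by
  apply Nat.Coprime.symm
  rw [Nat.coprime_iff_gcd_eq_one]
  by_contra hne
  obtain ⟨q, hq, hd⟩ := Nat.exists_prime_and_dvd hne
  have h1 := N_prime B i q hq (hd.trans (Nat.gcd_dvd_left _ _))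
  have h2 := Nat.le_of_dvd (by omega) (hd.trans (Nat.gcd_dvd_right _ _))
  omega

/-- the abundancy index of `N B i`. -/
noncomputable def R (B i : ℕ) : ℝ := (s (N B i) : ℝ) / N B i

lemma R_zero (B : ℕ) : R B 0 = 1 := by simp [R, N, s_one]

lemma R_succ (B i : ℕ) : R B (i + 1) =
    if (B + i + 1).Prime then R B i * (1 + 1 / ((B + i + 1 : ℕ) : ℝ)) else R B i := by
  unfold R
  simp only [N]
  split_ifs with hp
  · have hcop : (N B i).Coprime (B + i + 1) := by
      rw [Nat.coprime_comm, Nat.Prime.coprime_iff_not_dvd hp]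
      intro h
      have := N_prime B i _ hp h
      omega
    rw [s_mul hcop, s_prime hp]
    have h1 : (N B i : ℝ) ≠ 0 := by exact_mod_cast (N_pos B i).ne'
    have h2 : ((B + i + 1 : ℕ) : ℝ) ≠ 0 := by positivity
    rw [Nat.cast_mul, Nat.cast_mul, Nat.cast_add (B + i + 1) 1, Nat.cast_one]
    field_simp
  · rfl

lemma R_ge (B i : ℕ) : 1 + ∑ j ∈ Finset.range i,
    Set.indicator {q : ℕ | q.Prime} (fun q : ℕ => (1 : ℝ) / q) (j + (B + 1)) ≤ R B i := by
  induction i with
  | zero => simp [R_zero]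
  | succ i ih =>
    rw [Finset.sum_range_succ, R_succ]
    have h0 : (0 : ℝ) ≤ ∑ j ∈ Finset.range i,
        Set.indicator {q : ℕ | q.Prime} (fun q : ℕ => (1 : ℝ) / q) (j + (B + 1)) := by
      apply Finset.sum_nonneg
      intro j _
      apply Set.indicator_nonneg
      intro x _
      positivity
    have e : i + (B + 1) = B + i + 1 := by ring
    rw [e]
    split_ifs with hp
    · rw [Set.indicator_of_mem (show (B + i + 1) ∈ {q : ℕ | q.Prime} from hp)]
      have h2 : (0 : ℝ) ≤ 1 / ((B + i + 1 : ℕ) : ℝ) := by positivity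
      nlinarith
    · rw [Set.indicator_of_notMem (show (B + i + 1) ∉ {q : ℕ | q.Prime} from hp)]
      linarith

lemma R_unbounded (B : ℕ) (c : ℝ) : ∃ i, c ≤ R B i := by
  by_contra hcon
  push Not at hcon
  apply not_summable_one_div_on_primes
  rw [← summable_nat_add_iff (B + 1)]
  apply summable_of_sum_range_le (c := c - 1)
  · intro n
    apply Set.indicator_nonneg
    intro x _
    positivity
  · intro n
    have h1 := R_ge B n
    have h2 := hcon n
    have h3 : ∑ j ∈ Finset.range n,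
        Set.indicator {q : ℕ | q.Prime} (fun q : ℕ => (1 : ℝ) / q) (j + (B + 1)) ≤ c - 1 := by
      linarith
    exact h3

/-- there is a number with large prime factors and prescribed abundancy. -/
lemma exists_n (B : ℕ) (c : ℝ) (hc : 1 < c) :
    ∃ i, c ≤ R B i ∧ R B i < c * (1 + 1 / ((B : ℝ) + 1)) := by
  classical
  have hex := R_unbounded B c
  obtain ⟨i, hi1, hi2⟩ : ∃ i, c ≤ R B i ∧ ∀ j < i, R B j < c :=
    ⟨Nat.find hex, Nat.find_spec hex, fun j hj => not_le.1 (Nat.find_min hex hj)⟩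
  refine ⟨i, hi1, ?_⟩
  have hi0 : i ≠ 0 := by
    rintro rfl
    rw [R_zero] at hi1
    linarith
  obtain ⟨l, rfl⟩ : ∃ l, i = l + 1 := ⟨i - 1, by omega⟩
  have h1 := hi2 l (Nat.lt_succ_self l)
  rw [R_succ] at hi1 ⊢
  have hBpos : (0 : ℝ) < (B : ℝ) + 1 := by positivity
  split_ifs at hi1 ⊢ with hp
  · have h2 : 1 / ((B + l + 1 : ℕ) : ℝ) ≤ 1 / ((B : ℝ) + 1) := by
      apply one_div_le_one_div_of_le hBpos
      push_cast
      have : (0 : ℝ) ≤ l := Nat.cast_nonneg l
      linarith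
    have h3 : (0 : ℝ) < 1 + 1 / ((B + l + 1 : ℕ) : ℝ) := by positivity
    calc R B l * (1 + 1 / ((B + l + 1 : ℕ) : ℝ)) < c * (1 + 1 / ((B + l + 1 : ℕ) : ℝ)) :=
          mul_lt_mul_of_pos_right h1 h3
      _ ≤ c * (1 + 1 / ((B : ℝ) + 1)) := by
          apply mul_le_mul_of_nonneg_left _ (by linarith)
          linarith
  · linarith

/-- every almost perfect number is a value of `a`. -/
theorem part2 (k : ℕ) (hk : 1 ≤ k) (hs : s k + 1 = 2 * k) : ∃ n, 2 ≤ n ∧ a n = k := by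
  have hkR : (1 : ℝ) ≤ k := by exact_mod_cast hk
  have hc : (1 : ℝ) < 2 * k / (2 * k - 1) := by
    rw [lt_div_iff₀ (by linarith)]
    linarith
  obtain ⟨i, h1, h2⟩ := exists_n (2 * k ^ 2) (2 * k / (2 * k - 1)) hc
  set n := N (2 * k ^ 2) i with hn
  have hnpos : 0 < n := N_pos _ _
  have hnR : (0 : ℝ) < n := by exact_mod_cast hnpos
  have hR : R (2 * k ^ 2) i = (s n : ℝ) / n := rfl
  rw [hR] at h1 h2
  have hkB : k ≤ 2 * k ^ 2 := by nlinarith
  -- integer forms
  have c1 : 2 * k * n ≤ (2 * k - 1) * s n := by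
    have : 2 * (k : ℝ) * n ≤ (2 * k - 1) * s n := by
      rw [div_le_div_iff₀ (by linarith) hnR] at h1
      linarith
    have h5 : ((2 * k - 1 : ℕ) : ℝ) = 2 * (k : ℝ) - 1 := by
      rw [Nat.cast_sub (by omega)]
      push_cast
      ring
    rw [← h5] at this
    exact_mod_cast this
  have hn2 : 2 ≤ n := by
    by_contra hlt
    have h1n : n = 1 := by omega
    rw [h1n, s_one] at c1
    omega
  refine ⟨n, hn2, ?_⟩
  have hmem : k ∈ M n := by
    refine ⟨hk, by omega, ?_⟩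
    rw [s_mul (N_cop _ _ k hk hkB)]
    have : s k = 2 * k - 1 := by omega
    rw [this]
    calc 2 * (k * n) = 2 * k * n := by ring
      _ ≤ _ := c1
  apply le_antisymm (Nat.sInf_le hmem)
  by_contra hcon
  push Not at hcon
  have hm := Nat.sInf_mem ⟨_, hmem⟩
  change a n ∈ M n at hm
  obtain ⟨l, hl⟩ : ∃ l, a n = l := ⟨_, rfl⟩
  rw [← a_def] at hcon
  rw [hl] at hm hcon
  obtain ⟨m1, m2, m3⟩ := hm
  rw [s_mul (N_cop _ _ l m1 (by omega))] at m3
  -- `k ≥ 2`, `s l ≤ 2 l - 1`, `l ≤ k - 1`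
  have hk2 : 2 ≤ k := by omega
  have hk2R : (2 : ℝ) ≤ k := by exact_mod_cast hk2
  have hlk : (l : ℝ) ≤ k - 1 := by
    have : l + 1 ≤ k := hcon
    have : ((l + 1 : ℕ) : ℝ) ≤ k := by exact_mod_cast this
    push_cast at this
    linarith
  have hl1 : (1 : ℝ) ≤ l := by exact_mod_cast m1
  have hsl : (s l : ℝ) ≤ 2 * l - 1 := by
    have : s l + 1 ≤ 2 * l := by omega
    have : ((s l + 1 : ℕ) : ℝ) ≤ ((2 * l : ℕ) : ℝ) := by exact_mod_cast this
    push_cast at this
    linarith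
  have m3R : 2 * ((l : ℝ) * n) ≤ s l * s n := by exact_mod_cast m3
  have hsn : (0 : ℝ) ≤ s n := Nat.cast_nonneg _
  have m4 : 2 * ((l : ℝ) * n) ≤ (2 * l - 1) * s n :=
    m3R.trans (mul_le_mul_of_nonneg_right hsl hsn)
  -- upper bound for `s n / n`
  have u1 : (2 * (k : ℝ) / (2 * k - 1)) * (1 + 1 / (((2 * k ^ 2 : ℕ) : ℝ) + 1)) ≤
      (2 * k - 2) / (2 * k - 3) := by
    push_cast
    have e1 : (2 * (k : ℝ) / (2 * k - 1)) * (1 + 1 / (2 * (k : ℝ) ^ 2 + 1)) =
        (2 * k * (2 * k ^ 2 + 2)) / ((2 * k - 1) * (2 * k ^ 2 + 1)) := by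
      have : (2 * (k : ℝ) - 1) ≠ 0 := by linarith
      field_simp
      ring
    rw [e1, div_le_div_iff₀ (by apply mul_pos; linarith; positivity) (by linarith)]
    nlinarith
  have u2 : (s n : ℝ) / n < (2 * k - 2) / (2 * k - 3) := lt_of_lt_of_le h2 u1
  have u3 : (s n : ℝ) * (2 * k - 3) < (2 * k - 2) * n := by
    rwa [div_lt_div_iff₀ hnR (by linarith)] at u2
  -- `s n = n + A`
  have v1 : ((s n : ℝ) - n) * (2 * k - 3) < n := by linarith
  have v2 : (n : ℝ) ≤ (2 * l - 1) * (s n - n) := by linarith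
  have v3 : (0 : ℝ) ≤ (s n : ℝ) - n := by
    have := s_ge n hnpos
    have : (n : ℝ) ≤ s n := by exact_mod_cast this
    linarith
  have v4 : (2 * (l : ℝ) - 1) * (s n - n) ≤ (2 * k - 3) * (s n - n) :=
    mul_le_mul_of_nonneg_right (by linarith) v3
  linarith

lemma a_two : a 2 = 3 := by
  have h3 : 3 ∈ M 2 := by
    refine ⟨by norm_num, by rw [s_three]; norm_num, ?_⟩
    have : s (3 * 2) = 12 := by decide
    rw [this]
  have h1 : a 2 ≤ 3 := Nat.sInf_le h3
  have hm : a 2 ∈ M 2 := Nat.sInf_mem ⟨3, h3⟩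
  obtain ⟨l, hl⟩ : ∃ l, a 2 = l := ⟨_, rfl⟩
  rw [hl] at h1 hm ⊢
  obtain ⟨m1, m2, m3⟩ := hm
  have e2 : s (1 * 2) = 3 := by decide
  have e4 : s (2 * 2) = 7 := by decide
  interval_cases l
  · rw [e2] at m3; omega
  · rw [e4] at m3; omega
  · rfl

/-- **Main result.**  (1) The values of `a` at the integers `n ≥ 2` are exactly `3` and the almost
perfect numbers, i.e. the `k ≥ 1` with `σ(k) = 2k - 1`.  (2) Hence every value `a n`, `n ≥ 2`, is
`3` or a power of two if and only if every almost perfect number is a power of two. -/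
theorem result :
    ({k | ∃ n, 2 ≤ n ∧ a n = k} = {3} ∪ {k | 1 ≤ k ∧ s k + 1 = 2 * k}) ∧
    ((∀ n, 2 ≤ n → a n = 3 ∨ ∃ j, a n = 2 ^ j) ↔
      ∀ k, 1 ≤ k → s k + 1 = 2 * k → ∃ j, k = 2 ^ j) := by
  constructor
  · ext k
    simp only [Set.mem_ofPred_eq, Set.mem_union, Set.mem_singleton_iff]
    constructor
    · rintro ⟨n, hn, rfl⟩
      rcases part1 n hn with h | h
      · exact Or.inl h
      · right
        exact ⟨by omega, h⟩
    · rintro (rfl | ⟨h1, h2⟩)
      · exact ⟨2, le_rfl, a_two⟩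
      · exact part2 k h1 h2
  · constructor
    · intro h k h1 h2
      obtain ⟨n, hn, hk⟩ := part2 k h1 h2
      rcases h n hn with h3 | ⟨j, hj⟩
      · rw [hk] at h3
        rw [h3, s_three] at h2
        omega
      · exact ⟨j, by rw [← hk, hj]⟩
    · intro h n hn
      rcases part1 n hn with h1 | h1
      · exact Or.inl h1
      · exact Or.inr (h (a n) (by omega) h1)

end Pool.Agent.Results.MP_c5ead3_nt.ValuesAlmostPerfect
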